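import Mathlib

set_option autoImplicit false

namespace Pool.Agent.Results.MP_8dd27d_al.Disproof

universe u w

section Defs

open MvPolynomial

variable {K : Type u} [Field K] {n : ℕ}

/-- The element `r` of `K[x_1,…,x_n]/J` is the class of a form of degree `d`. -/
def IsForm (J : Ideal (MvPolynomial (Fin n) K)) (d : ℕ) (r : MvPolynomial (Fin n) K ⧸ J) : Prop :=
  ∃ p : MvPolynomial (Fin n) K, p.IsHomogeneous d ∧ Ideal.Quotient.mk J p = r

/-- `J` is a homogeneous ideal contained in `(x_1,…,x_n)^2`. -/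
def IsStandard (J : Ideal (MvPolynomial (Fin n) K)) : Prop :=
  (∀ p ∈ J, ∀ i : ℕ, homogeneousComponent i p ∈ J) ∧
    J ≤ Ideal.span (Set.range (X : Fin n → MvPolynomial (Fin n) K)) ^ 2

/-- The ideal `I` of `K[x_1,…,x_n]/J` is generated by linear forms. -/
def LinearlyGenerated (J : Ideal (MvPolynomial (Fin n) K))
    (I : Ideal (MvPolynomial (Fin n) K ⧸ J)) : Prop :=
  I = Ideal.span {r | r ∈ I ∧ IsForm J 1 r}

/-- The ideal `I` of `R = K[x_1,…,x_n]/J` has a `d`-linear graded free resolution over `R`. -/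
def HasLinearResolution (J : Ideal (MvPolynomial (Fin n) K))
    (I : Ideal (MvPolynomial (Fin n) K ⧸ J)) (d : ℕ) : Prop :=
  ∃ (b : ℕ → ℕ) (g : Fin (b 0) → MvPolynomial (Fin n) K ⧸ J)
    (A : (i : ℕ) → Matrix (Fin (b i)) (Fin (b (i + 1))) (MvPolynomial (Fin n) K ⧸ J)),
    (∀ j, IsForm J d (g j)) ∧ (∀ i r c, IsForm J 1 (A i r c)) ∧
    Ideal.span (Set.range g) = I ∧
    (∀ v : Fin (b 0) → MvPolynomial (Fin n) K ⧸ J,
      ∑ j, v j * g j = 0 ↔ ∃ w, (A 0).mulVec w = v) ∧
    (∀ (i : ℕ) (v : Fin (b (i + 1)) → MvPolynomial (Fin n) K ⧸ J),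
      (A i).mulVec v = 0 ↔ ∃ w, (A (i + 1)).mulVec w = v)

/-- `K[x_1,…,x_n]/J` is universally Koszul: all ideals generated by linear forms have a linear
resolution. -/
def UniversallyKoszul (J : Ideal (MvPolynomial (Fin n) K)) : Prop :=
  ∀ I : Ideal (MvPolynomial (Fin n) K ⧸ J), LinearlyGenerated J I → HasLinearResolution J I 1

/-- `J` is G-quadratic: after some linear change of coordinates `φ` there is a monomial order for
which the leading monomial of every nonzero element of the ideal is divisible by the leading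
monomial of a quadric of the ideal, that is, the ideal has a Gröbner basis of quadrics. -/
def GQuadratic (J : Ideal (MvPolynomial (Fin n) K)) : Prop :=
  ∃ (φ : MvPolynomial (Fin n) K ≃ₐ[K] MvPolynomial (Fin n) K) (m : MonomialOrder.{0, w} (Fin n)),
    (∀ i, (φ (X i)).IsHomogeneous 1) ∧
    ∀ f ∈ J.map φ, f ≠ 0 → ∃ q ∈ J.map φ, q ≠ 0 ∧ q.IsHomogeneous 2 ∧ m.degree q ≤ m.degree f

end Defs

section Abstract

variable {R : Type u} [CommRing R]

/-- `I` is generated by elements satisfying `L`. -/
def LinGen (L : R → Prop) (I : Ideal R) : Prop := I = Ideal.span {r | r ∈ I ∧ L r}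

/-- Submodules with linear quotients: built from `0` by adding one element at a time, with
linearly generated annihilators of the successive quotients. -/
inductive LF (L : R → Prop) {M : Type u} [AddCommGroup M] [Module R M] (P : M → Prop) :
    Submodule R M → Prop
  | bot : LF L P ⊥
  | step (N : Submodule R M) (a : M) (hN : LF L P N) (ha : P a)
      (hC : LinGen L (N.comap (LinearMap.toSpanSingleton R M a))) :
      LF L P (N ⊔ Submodule.span R {a})

/-- The colon property: all colon ideals of linear ideals by linear forms are linear. -/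
def ColonProp (L : R → Prop) : Prop :=
  ∀ C : Ideal R, LinGen L C → ∀ c, L c → c ∉ C →
    LinGen L (Submodule.comap (LinearMap.toSpanSingleton R R c) C)

/-- The abstract homogeneous lifting property. -/
def LiftProp (L : R → Prop) : Prop :=
  ∀ (m m' : ℕ) (A : Matrix (Fin m) (Fin m') R) (a : Fin m → R) (c : R) (w : Fin m' → R),
    (∀ i j, L (A i j)) → (∀ i, L (a i)) → L c → A.mulVec w = c • a →
    ∃ w' : Fin m' → R, (∀ j, L (w' j)) ∧ A.mulVec w' = c • a

variable {L : R → Prop}

lemma linGen_span (T : Set R) (hT : ∀ r ∈ T, L r) : LinGen L (Ideal.span T) := by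
  apply le_antisymm
  · apply Ideal.span_mono
    intro r hr
    exact ⟨Ideal.subset_span hr, hT r hr⟩
  · rw [Ideal.span_le]
    intro r hr
    exact hr.1

lemma LF.of_finset (hcol : ColonProp L) (T : Finset R)
    (hT : ∀ r ∈ T, L r) : LF L L (Ideal.span (T : Set R)) := by
  classical
  induction T using Finset.induction_on with
  | empty => simpa using LF.bot
  | insert a T _ ih =>
    have hT' : ∀ r ∈ T, L r := fun r hr => hT r (Finset.mem_insert_of_mem hr)
    have h1 : Ideal.span ((insert a T : Finset R) : Set R) =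
        Ideal.span (T : Set R) ⊔ Submodule.span R {a} := by
      rw [Finset.coe_insert, Ideal.span_insert, sup_comm]
    by_cases hmem : a ∈ Ideal.span (T : Set R)
    · have : Ideal.span (T : Set R) ⊔ Submodule.span R {a} =
          Ideal.span (T : Set R) := by
        rw [sup_eq_left, Submodule.span_singleton_le_iff_mem]
        exact hmem
      rw [h1, this]
      exact ih hT'
    · rw [h1]
      exact LF.step _ a (ih hT') (hT a (Finset.mem_insert_self _ _))
        (hcol _ (linGen_span _ hT') a (hT a (Finset.mem_insert_self _ _)) hmem)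

lemma LF.of_lin [IsNoetherianRing R] (hcol : ColonProp L) {C : Ideal R}
    (hC : LinGen L C) : LF L L C := by
  have hfg : C.FG := IsNoetherian.noetherian C
  unfold LinGen at hC
  rw [hC] at hfg
  obtain ⟨T, hT, hTC⟩ := (Submodule.fg_span_iff_fg_span_finset_subset _).mp hfg
  have := LF.of_finset hcol T (fun r hr => (hT hr).2)
  rw [hC]
  show LF L L (Submodule.span _ _)
  rw [hTC]
  exact this

lemma LF.map {M M' : Type u} [AddCommGroup M] [Module R M]
    [AddCommGroup M'] [Module R M'] {P : M → Prop} {P' : M' → Prop}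
    (f : M →ₗ[R] M') (hf : Function.Injective f)
    (hP : ∀ m, P m → P' (f m)) {N : Submodule R M} (hN : LF L P N) :
    LF L P' (N.map f) := by
  induction hN with
  | bot => rw [Submodule.map_bot]; exact LF.bot
  | step N a _ ha hC ih =>
    rw [Submodule.map_sup, Submodule.map_span, Set.image_singleton]
    refine LF.step _ _ ih (hP a ha) ?_
    have : Submodule.comap (LinearMap.toSpanSingleton R M' (f a)) (Submodule.map f N) =
        Submodule.comap (LinearMap.toSpanSingleton R M a) N := by
      ext r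
      simp only [Submodule.mem_comap, LinearMap.toSpanSingleton_apply]
      rw [← map_smul]
      constructor
      · rintro ⟨m, hm, h⟩
        rw [← hf h]; exact hm
      · intro h
        exact ⟨_, h, rfl⟩
    rw [this]
    exact hC

/-- Entrywise linear vectors. -/
def LinVec (L : R → Prop) (m : ℕ) (a : Fin m → R) : Prop := ∀ i, L (a i)

/-- Zero extension of vectors. -/
def ext0 (R : Type u) [CommRing R] (m : ℕ) : (Fin m → R) →ₗ[R] (Fin (m + 1) → R) where
  toFun v := Fin.snoc v 0
  map_add' v w := by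
    ext i
    refine Fin.lastCases ?_ (fun i => ?_) i <;> simp
  map_smul' r v := by
    ext i
    refine Fin.lastCases ?_ (fun i => ?_) i <;> simp

/-- The last coordinate. -/
def lastCo (R : Type u) [CommRing R] (m : ℕ) : (Fin (m + 1) → R) →ₗ[R] R :=
  LinearMap.proj (Fin.last m)

lemma lastCo_apply (m : ℕ) (v : Fin (m + 1) → R) : lastCo R m v = v (Fin.last m) := rfl

/-- Main step: a submodule with linear quotients is the image of a matrix of linear forms whose
kernel has linear quotients. -/
lemma LF.matrix [IsNoetherianRing R] (h0 : L 0) (hneg : ∀ r, L r → L (-r)) (hlift : LiftProp L)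
    (hcol : ColonProp L) {m : ℕ} {N : Submodule R (Fin m → R)} (hN : LF L (LinVec L m) N) :
    ∃ (m' : ℕ) (A : Matrix (Fin m) (Fin m') R),
      (∀ i j, L (A i j)) ∧ LinearMap.range A.mulVecLin = N ∧
      LF L (LinVec L m') (LinearMap.ker A.mulVecLin) := by
  induction hN with
  | bot =>
    refine ⟨0, 0, fun i j => j.elim0, ?_, ?_⟩
    · rw [Matrix.mulVecLin_zero]; exact LinearMap.range_zero
    · have : LinearMap.ker (0 : Matrix (Fin m) (Fin 0) R).mulVecLin = ⊥ := by
        apply Subsingleton.elim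
      rw [this]
      exact LF.bot
  | step N a _ ha hC ih =>
    obtain ⟨m', A', hA', hran, hker⟩ := ih
    let A : Matrix (Fin m) (Fin (m' + 1)) R := Matrix.of fun i => Fin.snoc (A' i) (a i)
    have hAv : ∀ v : Fin (m' + 1) → R,
        A.mulVec v = A'.mulVec (Fin.init v) + v (Fin.last m') • a := by
      intro v
      ext i
      simp only [Matrix.mulVec, dotProduct, Pi.add_apply, Pi.smul_apply, smul_eq_mul]
      rw [Fin.sum_univ_castSucc]
      simp [A, Fin.init, mul_comm]
    refine ⟨m' + 1, A, ?_, ?_, ?_⟩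
    · intro i j
      refine Fin.lastCases ?_ (fun j => ?_) j
      · simpa [A] using ha i
      · simpa [A] using hA' i j
    · apply le_antisymm
      · rintro _ ⟨v, rfl⟩
        rw [Matrix.mulVecLin_apply, hAv]
        refine Submodule.add_mem_sup ?_ (Submodule.smul_mem _ _ (Submodule.mem_span_singleton_self a))
        rw [← hran]
        exact ⟨_, rfl⟩
      · rw [sup_le_iff, Submodule.span_singleton_le_iff_mem]
        constructor
        · rw [← hran]
          rintro _ ⟨v, rfl⟩
          refine ⟨Fin.snoc v 0, ?_⟩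
          rw [Matrix.mulVecLin_apply, hAv]
          simp only [Fin.init_snoc, Fin.snoc_last, Matrix.mulVecLin_apply]
          rw [zero_smul, add_zero]
        · refine ⟨Fin.snoc 0 1, ?_⟩
          rw [Matrix.mulVecLin_apply, hAv]
          simp
    · -- the kernel
      have claim : ∀ C : Ideal R, LF L L C →
          C ≤ N.comap (LinearMap.toSpanSingleton R _ a) →
          LF L (LinVec L (m' + 1)) (LinearMap.ker A.mulVecLin ⊓ Submodule.comap (lastCo R m') C) := by
        intro C hC
        induction hC with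
        | bot =>
          intro _
          have h1 : LF L (LinVec L (m' + 1)) ((LinearMap.ker A'.mulVecLin).map (ext0 R m')) := by
            refine LF.map (P := LinVec L m') (ext0 R m') ?_ ?_ hker
            · intro v w hvw
              ext i
              have := congrFun hvw (Fin.castSucc i)
              simpa [ext0] using this
            · intro v hv i
              refine Fin.lastCases ?_ (fun i => ?_) i
              · simpa [ext0] using h0
              · simpa [ext0] using hv i
          convert h1 using 1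
          ext w
          simp only [Submodule.mem_inf, LinearMap.mem_ker, Matrix.mulVecLin_apply,
            Submodule.mem_comap, lastCo_apply, Submodule.mem_bot, Submodule.mem_map, hAv]
          constructor
          · rintro ⟨hw1, hw2⟩
            rw [hw2, zero_smul, add_zero] at hw1
            refine ⟨Fin.init w, hw1, ?_⟩
            show Fin.snoc (Fin.init w) 0 = w
            rw [← hw2, Fin.snoc_init_self]
          · rintro ⟨v, hv, rfl⟩
            constructor
            · simp [ext0, hv]
            · simp [ext0]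
        | step C c _ hc hCc ihC =>
          intro hle
          have hle' : C ≤ N.comap (LinearMap.toSpanSingleton R _ a) := le_trans le_sup_left hle
          have hcmem : c • a ∈ N := by
            have : c ∈ N.comap (LinearMap.toSpanSingleton R _ a) :=
              hle (Submodule.mem_sup_right (Submodule.mem_span_singleton_self c))
            simpa using this
          rw [← hran] at hcmem
          obtain ⟨w0, hw0⟩ := hcmem
          obtain ⟨W, hW, hWeq⟩ := hlift m m' A' a c w0 hA' ha hc hw0
          let zv : Fin (m' + 1) → R := Fin.snoc (-W) c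
          have hzker : A.mulVec zv = 0 := by
            rw [hAv]
            simp only [zv, Fin.init_snoc, Fin.snoc_last]
            rw [Matrix.mulVec_neg, hWeq, neg_add_cancel]
          have hnew : LinearMap.ker A.mulVecLin ⊓
              Submodule.comap (lastCo R m') (C ⊔ Submodule.span R {c}) =
              (LinearMap.ker A.mulVecLin ⊓ Submodule.comap (lastCo R m') C) ⊔ Submodule.span R {zv} := by
            apply le_antisymm
            · rintro w ⟨hw1, hw2⟩
              obtain ⟨p, hp, q, hq, hpq⟩ := Submodule.mem_sup.mp hw2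
              obtain ⟨s, rfl⟩ := Submodule.mem_span_singleton.mp hq
              refine Submodule.mem_sup.mpr ⟨w - s • zv, ⟨?_, ?_⟩, s • zv,
                Submodule.smul_mem _ _ (Submodule.mem_span_singleton_self _), by simp⟩
              · refine Submodule.sub_mem _ hw1 (Submodule.smul_mem _ _ ?_)
                exact hzker
              · have : (w - s • zv) (Fin.last m') = p := by
                  rw [lastCo_apply] at hpq
                  simp [zv, ← hpq]
                show (w - s • zv) (Fin.last m') ∈ C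
                rw [this]; exact hp
            · rw [sup_le_iff]
              constructor
              · exact inf_le_inf_left _ (Submodule.comap_mono le_sup_left)
              · rw [Submodule.span_singleton_le_iff_mem]
                refine ⟨hzker, ?_⟩
                show zv (Fin.last m') ∈ C ⊔ Submodule.span R {c}
                simp only [zv, Fin.snoc_last]
                exact Submodule.mem_sup_right (Submodule.mem_span_singleton_self c)
          rw [hnew]
          refine LF.step _ zv (ihC hle') ?_ ?_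
          · intro i
            refine Fin.lastCases ?_ (fun j => ?_) i
            · simpa [zv] using hc
            · simpa [zv] using hneg _ (hW j)
          · convert hCc using 1
            ext s
            simp only [Submodule.mem_comap, LinearMap.toSpanSingleton_apply, Submodule.mem_inf,
              lastCo_apply, Pi.smul_apply]
            constructor
            · rintro ⟨_, h2⟩
              simpa [zv] using h2
            · intro h2
              refine ⟨Submodule.smul_mem _ _ hzker, ?_⟩
              simpa [zv] using h2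
      have hfin := claim _ (LF.of_lin hcol hC) le_rfl
      convert hfin using 1
      symm
      rw [inf_eq_left]
      intro w hw
      have hw' : A.mulVec w = 0 := hw
      rw [hAv] at hw'
      show w (Fin.last m') • a ∈ N
      rw [← hran]
      refine ⟨-Fin.init w, ?_⟩
      rw [map_neg, Matrix.mulVecLin_apply, neg_eq_iff_add_eq_zero]
      exact hw'

/-- A state of the recursive construction of the resolution. -/
structure State (L : R → Prop) : Type u where
  m : ℕ
  N : Submodule R (Fin m → R)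
  h : LF L (LinVec L m) N

lemma resolution_aux [IsNoetherianRing R] (h0 : L 0) (hneg : ∀ r, L r → L (-r))
    (hlift : LiftProp L) (hcol : ColonProp L)
    (s : State L) : ∃ (s' : State L) (A : Matrix (Fin s.m) (Fin s'.m) R),
      (∀ i j, L (A i j)) ∧ LinearMap.range A.mulVecLin = s.N ∧
      LinearMap.ker A.mulVecLin = s'.N := by
  obtain ⟨m', A, h1, h2, h3⟩ := LF.matrix h0 hneg hlift hcol s.h
  exact ⟨⟨m', _, h3⟩, A, h1, h2, rfl⟩

/-- Every linearly generated ideal has a linear resolution. -/
theorem exists_linear_resolution [IsNoetherianRing R] (h0 : L 0) (hneg : ∀ r, L r → L (-r))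
    (hlift : LiftProp L) (hcol : ColonProp L) (I : Ideal R) (hI : LinGen L I) :
    ∃ (b : ℕ → ℕ) (g : Fin (b 0) → R) (A : (i : ℕ) → Matrix (Fin (b i)) (Fin (b (i + 1))) R),
    (∀ j, L (g j)) ∧ (∀ i r c, L (A i r c)) ∧
    Ideal.span (Set.range g) = I ∧
    (∀ v : Fin (b 0) → R, ∑ j, v j * g j = 0 ↔ ∃ w, (A 0).mulVec w = v) ∧
    (∀ (i : ℕ) (v : Fin (b (i + 1)) → R),
      (A i).mulVec v = 0 ↔ ∃ w, (A (i + 1)).mulVec w = v) := by
  choose nxt mat h1 h2 h3 using resolution_aux h0 hneg hlift hcol
  have hI0 : LF L L I := LF.of_lin hcol hI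
  let ι : R →ₗ[R] (Fin 1 → R) := LinearMap.pi fun _ => LinearMap.id
  have hι : LF L (LinVec L 1) (Submodule.map ι I) := by
    refine LF.map (P := L) ι ?_ ?_ hI0
    · intro v w hvw
      have := congrFun hvw 0
      simpa [ι] using this
    · intro v hv i
      simpa [ι] using hv
  let s : ℕ → State L := fun i => Nat.rec ⟨1, _, hι⟩ (fun _ t => nxt t) i
  let g : Fin (s 1).m → R := fun j => mat (s 0) (0 : Fin 1) j
  have hg : ∀ v : Fin (s 1).m → R, (mat (s 0)).mulVec v (0 : Fin 1) = ∑ j, v j * g j := by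
    intro v
    simp only [Matrix.mulVec, dotProduct]
    exact Finset.sum_congr rfl fun j _ => mul_comm _ _
  have hker : ∀ i (v : Fin (s (i + 1)).m → R), (mat (s i)).mulVec v = 0 ↔
      ∃ w, (mat (s (i + 1))).mulVec w = v := by
    intro i v
    have e1 : (mat (s i)).mulVec v = 0 ↔ v ∈ LinearMap.ker (mat (s i)).mulVecLin := by
      rw [LinearMap.mem_ker, Matrix.mulVecLin_apply]
    have e2 : LinearMap.ker (mat (s i)).mulVecLin = (s (i + 1)).N := h3 (s i)
    rw [e1, e2, ← h2 (s (i + 1))]
    rfl
  refine ⟨fun i => (s (i + 1)).m, g, fun i => mat (s (i + 1)), ?_, ?_, ?_, ?_, ?_⟩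
  · intro j
    exact h1 (s 0) (0 : Fin 1) j
  · intro i r c
    exact h1 (s (i + 1)) r c
  · have hr := h2 (s 0)
    apply le_antisymm
    · rw [Ideal.span_le]
      rintro _ ⟨j, rfl⟩
      have : (mat (s 0)).mulVecLin (Pi.single j 1) ∈ (s 0).N := by
        rw [← hr]; exact ⟨_, rfl⟩
      obtain ⟨r, hrI, hr2⟩ := this
      have h4 := congrFun hr2 (0 : Fin 1)
      rw [Matrix.mulVecLin_apply] at h4
      have h5 : (mat (s 0)).mulVec (Pi.single j 1) (0 : Fin 1) = g j := by
        simp [g]
      have h6 : r = g j := h4.trans h5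
      rw [← h6]
      exact hrI
    · intro r hrI
      have : ι r ∈ (s 0).N := ⟨r, hrI, rfl⟩
      rw [← hr] at this
      obtain ⟨v, hv⟩ := this
      have h4 := congrFun hv (0 : Fin 1)
      rw [Matrix.mulVecLin_apply, hg] at h4
      have h6 : r = ∑ j, v j * g j := h4.symm
      rw [h6]
      exact Ideal.sum_mem _ fun j _ => Ideal.mul_mem_left _ _ (Ideal.subset_span ⟨j, rfl⟩)
  · intro v
    refine Iff.trans ?_ (hker 0 v)
    constructor
    · intro h
      ext i
      have hi : i = (0 : Fin 1) := Subsingleton.elim (α := Fin 1) _ _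
      rw [hi]
      exact (hg v).trans h
    · intro h
      exact (hg v).symm.trans (congrFun h (0 : Fin 1))
  · intro i v
    exact hker (i + 1) v

end Abstract

section Equiv

variable {R : Type u} [CommRing R]

lemma mem_comap_iff {A : Type*} [CommRing A] (I : Ideal A) (c f : A) :
    f ∈ Submodule.comap (LinearMap.toSpanSingleton A A c) I ↔ f * c ∈ I := by
  simp [LinearMap.toSpanSingleton_apply]

/-- The colon property is invariant under isomorphism. -/
lemma ColonProp.of_equiv {R' : Type u} [CommRing R'] (e : R ≃+* R') (L : R → Prop)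
    (L' : R' → Prop) (hLL : ∀ r, L r ↔ L' (e r)) (h : ColonProp L') : ColonProp L := by
  have key : ∀ I : Ideal R, LinGen L' (I.map e) ↔ LinGen L I := by
    intro I
    have hmem : ∀ r, e r ∈ I.map e ↔ r ∈ I := by
      intro r
      constructor
      · intro hr
        rw [← Ideal.comap_symm (f := e)] at hr
        simpa using hr
      · intro hr
        exact Ideal.mem_map_of_mem e hr
    have himg : {s | s ∈ I.map e ∧ L' s} = e '' {r | r ∈ I ∧ L r} := by
      ext s
      constructor
      · rintro ⟨h1, h2⟩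
        refine ⟨e.symm s, ⟨?_, ?_⟩, by simp⟩
        · rw [← hmem]; simpa using h1
        · rw [hLL]; simpa using h2
      · rintro ⟨r, ⟨h1, h2⟩, rfl⟩
        exact ⟨Ideal.mem_map_of_mem _ h1, (hLL r).mp h2⟩
    unfold LinGen
    rw [himg, ← Ideal.map_span]
    constructor
    · intro h
      have := congrArg (Ideal.comap e) h
      rw [Ideal.comap_map_of_bijective _ e.bijective, Ideal.comap_map_of_bijective _ e.bijective]
        at this
      exact this
    · intro h
      exact congrArg _ h
  intro C hC c hc hcC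
  rw [← key] at hC ⊢
  have h1 := h _ hC (e c) ((hLL c).mp hc) (by
    intro h2
    apply hcC
    rw [← Ideal.comap_symm (f := e)] at h2
    simpa using h2)
  convert h1 using 1
  ext s
  rw [mem_comap_iff]
  obtain ⟨r, rfl⟩ := e.surjective s
  rw [← map_mul]
  have hmem : ∀ (I : Ideal R) (r : R), e r ∈ I.map e ↔ r ∈ I := by
    intro I r
    constructor
    · intro hr
      rw [← Ideal.comap_symm (f := e)] at hr
      simpa using hr
    · intro hr
      exact Ideal.mem_map_of_mem e hr
  rw [hmem, hmem, mem_comap_iff]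

end Equiv

section Graded

open MvPolynomial

variable {K : Type u} [Field K] {n : ℕ}

attribute [local instance] MvPolynomial.gradedAlgebra

lemma comp_mul_right (d i : ℕ) (u q : MvPolynomial (Fin n) K) (hq : q.IsHomogeneous d) :
    homogeneousComponent (i + d) (u * q) = homogeneousComponent i u * q := by
  have h := DirectSum.coe_decompose_mul_add_of_right_mem (homogeneousSubmodule (Fin n) K)
    (i := i) (j := d) (a := u) (b := q) hq
  have h1 : ((DirectSum.decompose (homogeneousSubmodule (Fin n) K) (u * q)) (i + d) :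
      MvPolynomial (Fin n) K) = homogeneousComponent (i + d) (u * q) :=
    decomposition.decompose'_apply _ _
  have h2 : ((DirectSum.decompose (homogeneousSubmodule (Fin n) K) u) i :
      MvPolynomial (Fin n) K) = homogeneousComponent i u := decomposition.decompose'_apply _ _
  rw [← h1, h, h2]

variable {J : Ideal (MvPolynomial (Fin n) K)}

lemma IsForm.neg {d : ℕ} {r : MvPolynomial (Fin n) K ⧸ J} (h : IsForm J d r) :
    IsForm J d (-r) := by
  obtain ⟨p, hp, rfl⟩ := h
  exact ⟨-p, hp.neg, by simp⟩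

lemma IsForm.zero (d : ℕ) : IsForm J d 0 := ⟨0, isHomogeneous_zero _ _ _, by simp⟩

lemma liftProp (hJ : ∀ p ∈ J, ∀ i : ℕ, homogeneousComponent i p ∈ J) :
    LiftProp (IsForm J 1) := by
  intro m m' A a c w hA ha hc h
  choose P hP hPA using hA
  choose Q hQ hQa using ha
  obtain ⟨q, hq, rfl⟩ := hc
  choose W hW using fun j => Ideal.Quotient.mk_surjective (w j)
  refine ⟨fun j => Ideal.Quotient.mk J (homogeneousComponent 1 (W j)),
    fun j => ⟨_, homogeneousComponent_isHomogeneous _ _, rfl⟩, ?_⟩
  ext i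
  have h0 := congrFun h i
  simp only [Matrix.mulVec, dotProduct, Pi.smul_apply, smul_eq_mul] at h0 ⊢
  have h1 : (∑ j, W j * P i j) - q * Q i ∈ J := by
    rw [← Ideal.Quotient.eq_zero_iff_mem, map_sub, map_sum, sub_eq_zero, map_mul, hQa, ← h0]
    refine Finset.sum_congr rfl fun j _ => ?_
    rw [map_mul, hW, hPA, mul_comm]
  have h2 := hJ _ h1 (1 + 1)
  rw [map_sub, map_sum, homogeneousComponent_eq_self (hq.mul (hQ i)),
    ← Ideal.Quotient.eq_zero_iff_mem, map_sub, map_sum, sub_eq_zero, map_mul, hQa] at h2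
  rw [← h2]
  refine Finset.sum_congr rfl fun j _ => ?_
  rw [comp_mul_right _ _ _ _ (hP i j), map_mul, hPA, mul_comm]

/-- Constants in the quotient. -/
noncomputable def cst (J : Ideal (MvPolynomial (Fin n) K)) (q : K) : MvPolynomial (Fin n) K ⧸ J :=
  Ideal.Quotient.mk J (C q)

lemma cst_add (p q : K) : cst J (p + q) = cst J p + cst J q := by simp [cst]
lemma cst_sub (p q : K) : cst J (p - q) = cst J p - cst J q := by simp [cst]
lemma cst_mul (p q : K) : cst J (p * q) = cst J p * cst J q := by simp [cst]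
lemma cst_zero : cst J 0 = 0 := by simp [cst]
lemma cst_one : cst J 1 = 1 := by simp [cst]
lemma cst_sum {ι : Type*} (s : Finset ι) (f : ι → K) :
    cst J (∑ i ∈ s, f i) = ∑ i ∈ s, cst J (f i) := by
  simp [cst]

/-- If a degree `d` form is a combination of forms of degree `d` modulo `J`, then
it is a combination with constant coefficients. -/
lemma const_coeffs (hJ : ∀ p ∈ J, ∀ i : ℕ, homogeneousComponent i p ∈ J) {d : ℕ}
    {ι : Type*} [Fintype ι] (r : MvPolynomial (Fin n) K ⧸ J) (hr : IsForm J d r)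
    (s : ι → MvPolynomial (Fin n) K ⧸ J) (hs : ∀ i, IsForm J d (s i))
    (u : ι → MvPolynomial (Fin n) K ⧸ J) (h : r = ∑ i, u i * s i) :
    ∃ w : ι → K, r = ∑ i, cst J (w i) * s i := by
  obtain ⟨p, hp, rfl⟩ := hr
  choose q hq hqs using hs
  choose U hU using fun i => Ideal.Quotient.mk_surjective (u i)
  have h1 : (∑ i, U i * q i) - p ∈ J := by
    rw [← Ideal.Quotient.eq_zero_iff_mem, map_sub, map_sum, h, sub_eq_zero]
    refine Finset.sum_congr rfl fun i _ => ?_
    rw [map_mul, hU, hqs]
  have h2 := hJ _ h1 (0 + d)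
  rw [map_sub, map_sum, homogeneousComponent_eq_self (by rw [zero_add]; exact hp),
    ← Ideal.Quotient.eq_zero_iff_mem, map_sub, map_sum, sub_eq_zero] at h2
  refine ⟨fun i => coeff 0 (U i), ?_⟩
  rw [← h2]
  refine Finset.sum_congr rfl fun i _ => ?_
  rw [comp_mul_right _ _ _ _ (hq i), homogeneousComponent_zero, map_mul, hqs, cst]

end Graded

section Model

variable {K : Type u} [Field K]

/-- The algebra `K[x,y]/(x^2 + c y^2, x y)` with basis `1, x, y, y^2`. -/
@[ext]
structure T4 (K : Type u) (c : K) : Type u where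
  k : K
  a : K
  b : K
  s : K

namespace T4

variable {c : K}

instance : Zero (T4 K c) := ⟨⟨0, 0, 0, 0⟩⟩
instance : One (T4 K c) := ⟨⟨1, 0, 0, 0⟩⟩
instance : Add (T4 K c) := ⟨fun x y => ⟨x.k + y.k, x.a + y.a, x.b + y.b, x.s + y.s⟩⟩
instance : Neg (T4 K c) := ⟨fun x => ⟨-x.k, -x.a, -x.b, -x.s⟩⟩
instance : Mul (T4 K c) := ⟨fun x y => ⟨x.k * y.k, x.k * y.a + x.a * y.k, x.k * y.b + x.b * y.k,
  x.k * y.s + x.s * y.k - c * (x.a * y.a) + x.b * y.b⟩⟩

@[simp] lemma zero_k : (0 : T4 K c).k = 0 := rfl
@[simp] lemma zero_a : (0 : T4 K c).a = 0 := rfl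
@[simp] lemma zero_b : (0 : T4 K c).b = 0 := rfl
@[simp] lemma zero_s : (0 : T4 K c).s = 0 := rfl
@[simp] lemma one_k : (1 : T4 K c).k = 1 := rfl
@[simp] lemma one_a : (1 : T4 K c).a = 0 := rfl
@[simp] lemma one_b : (1 : T4 K c).b = 0 := rfl
@[simp] lemma one_s : (1 : T4 K c).s = 0 := rfl
@[simp] lemma add_k (x y : T4 K c) : (x + y).k = x.k + y.k := rfl
@[simp] lemma add_a (x y : T4 K c) : (x + y).a = x.a + y.a := rfl
@[simp] lemma add_b (x y : T4 K c) : (x + y).b = x.b + y.b := rfl
@[simp] lemma add_s (x y : T4 K c) : (x + y).s = x.s + y.s := rfl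
@[simp] lemma neg_k (x : T4 K c) : (-x).k = -x.k := rfl
@[simp] lemma neg_a (x : T4 K c) : (-x).a = -x.a := rfl
@[simp] lemma neg_b (x : T4 K c) : (-x).b = -x.b := rfl
@[simp] lemma neg_s (x : T4 K c) : (-x).s = -x.s := rfl
@[simp] lemma mul_k (x y : T4 K c) : (x * y).k = x.k * y.k := rfl
@[simp] lemma mul_a (x y : T4 K c) : (x * y).a = x.k * y.a + x.a * y.k := rfl
@[simp] lemma mul_b (x y : T4 K c) : (x * y).b = x.k * y.b + x.b * y.k := rfl
@[simp] lemma mul_s (x y : T4 K c) :
    (x * y).s = x.k * y.s + x.s * y.k - c * (x.a * y.a) + x.b * y.b := rfl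

instance : CommRing (T4 K c) where
  add_assoc x y z := by ext <;> simp [add_assoc]
  zero_add x := by ext <;> simp
  add_zero x := by ext <;> simp
  nsmul := nsmulRec
  add_comm x y := by ext <;> simp [add_comm]
  left_distrib x y z := by ext <;> simp <;> ring
  right_distrib x y z := by ext <;> simp <;> ring
  zero_mul x := by ext <;> simp
  mul_zero x := by ext <;> simp
  mul_assoc x y z := by ext <;> simp <;> ring
  one_mul x := by ext <;> simp
  mul_one x := by ext <;> simp
  zsmul := zsmulRec
  neg_add_cancel x := by ext <;> simp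
  mul_comm x y := by ext <;> simp <;> ring

end T4

/-- linear forms of the model -/
def TLin {c : K} (f : T4 K c) : Prop := f.k = 0 ∧ f.s = 0

variable {c : K}

/-- The maximal ideal. -/
lemma mem_max_iff (f : T4 K c) : f ∈ Ideal.span {r : T4 K c | TLin r} ↔ f.k = 0 := by
  constructor
  · intro h
    induction h using Submodule.span_induction with
    | mem f hf => exact hf.1
    | zero => rfl
    | add f g _ _ hf hg => simp [hf, hg]
    | smul a f _ hf => simp [hf]
  · intro h
    have : f = ⟨f.a, 0, 0, 0⟩ * ⟨0, 1, 0, 0⟩ + ⟨f.b, 0, f.s, 0⟩ * ⟨0, 0, 1, 0⟩ := by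
      ext <;> simp [h]
    rw [this]
    exact Ideal.add_mem _ (Ideal.mul_mem_left _ _ (Ideal.subset_span ⟨rfl, rfl⟩))
      (Ideal.mul_mem_left _ _ (Ideal.subset_span ⟨rfl, rfl⟩))

lemma colonProp_T4 (hc : c ≠ 0) : ColonProp (fun r : T4 K c => TLin r) := by
  rintro D hD ⟨k, p, q, s⟩ ⟨hk, hs⟩ hcD
  simp only at hk hs
  subst hk hs
  by_cases hbot : ∃ f ∈ D, TLin f ∧ f ≠ 0
  · -- the colon ideal is the maximal ideal
    obtain ⟨⟨_, p', q', _⟩, hfD, ⟨h1, h2⟩, hf0⟩ := hbot
    simp only at h1 h2
    subst h1 h2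
    have hsoc : (⟨0, 0, 0, 1⟩ : T4 K c) ∈ D := by
      by_cases hp' : p' = 0
      · have hq' : q' ≠ 0 := by
          rintro rfl
          apply hf0
          rw [hp']
          rfl
        have : (⟨0, 0, 0, 1⟩ : T4 K c) = ⟨0, 0, q'⁻¹, 0⟩ * ⟨0, p', q', 0⟩ := by
          ext <;> simp [hq']
        rw [this]
        exact D.mul_mem_left _ hfD
      · have : (⟨0, 0, 0, 1⟩ : T4 K c) = ⟨0, -(c * p')⁻¹, 0, 0⟩ * ⟨0, p', q', 0⟩ := by
          ext <;> simp
          field_simp
        rw [this]
        exact D.mul_mem_left _ hfD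
    have hfin : Submodule.comap (LinearMap.toSpanSingleton (T4 K c) (T4 K c) ⟨0, p, q, 0⟩) D =
        Ideal.span {r | TLin r} := by
      ext g
      rw [mem_comap_iff, mem_max_iff]
      constructor
      · intro hg
        by_contra hne
        apply hcD
        have : (⟨0, p, q, 0⟩ : T4 K c) = ⟨g.k⁻¹, 0, 0, 0⟩ * (g * ⟨0, p, q, 0⟩) -
            ⟨g.k⁻¹ * (-c * (g.a * p) + g.b * q), 0, 0, 0⟩ * ⟨0, 0, 0, 1⟩ := by
          rw [sub_eq_add_neg]
          ext <;> simp [hne]
        rw [this]
        exact D.sub_mem (D.mul_mem_left _ hg) (D.mul_mem_left _ hsoc)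
      · intro hg
        have : g * ⟨0, p, q, 0⟩ = ⟨-c * (g.a * p) + g.b * q, 0, 0, 0⟩ *
            (⟨0, 0, 0, 1⟩ : T4 K c) := by
          ext <;> simp [hg]
        rw [this]
        exact D.mul_mem_left _ hsoc
    rw [hfin]
    exact linGen_span _ (fun r hr => hr)
  · -- `D = 0`
    have hD0 : D = ⊥ := by
      rw [eq_bot_iff, hD, Ideal.span_le]
      rintro f ⟨hfD, hfL⟩
      by_contra hne
      exact hbot ⟨f, hfD, hfL, hne⟩
    have hpq : ¬ (p = 0 ∧ q = 0) := by
      rintro ⟨rfl, rfl⟩
      exact hcD D.zero_mem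
    have hfin : Submodule.comap (LinearMap.toSpanSingleton (T4 K c) (T4 K c) ⟨0, p, q, 0⟩) D =
        Ideal.span {⟨0, q, c * p, 0⟩} := by
      ext g
      rw [mem_comap_iff, hD0, Ideal.mem_bot, Ideal.mem_span_singleton']
      constructor
      · intro hg
        have h1 := congrArg T4.a hg
        have h2 := congrArg T4.b hg
        have h3 := congrArg T4.s hg
        simp at h1 h2 h3
        by_cases hp : p = 0
        · have hq : q ≠ 0 := fun h => hpq ⟨hp, h⟩
          subst hp
          simp [hq] at h2 h3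
          refine ⟨⟨q⁻¹ * g.a, -(c * q)⁻¹ * g.s, 0, 0⟩, ?_⟩
          ext <;> simp [h2, h3]
          all_goals field_simp
        · simp [hp] at h1
          refine ⟨⟨(c * p)⁻¹ * g.b, 0, (c * p)⁻¹ * g.s, 0⟩, ?_⟩
          have h4 : g.a = (c * p)⁻¹ * g.b * q := by
            field_simp
            linear_combination -h3
          ext <;> simp [h1, h4]
          all_goals field_simp
      · rintro ⟨s, rfl⟩
        ext <;> simp <;> ring
    rw [hfin]
    refine linGen_span _ ?_
    intro r hr
    rw [Set.mem_singleton_iff] at hr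
    rw [hr]
    exact ⟨rfl, rfl⟩

end Model

section Concrete

open MvPolynomial

variable {K : Type u} [Field K]

/-- The ideal `(x^2 + c y^2, x y)` of `K[x,y]`. -/
noncomputable def JJ (c : K) : Ideal (MvPolynomial (Fin 2) K) :=
  Ideal.span {X 0 ^ 2 + C c * X 1 ^ 2, X 0 * X 1}

lemma hom_q1 (c : K) : (X 0 ^ 2 + C c * X 1 ^ 2 : MvPolynomial (Fin 2) K).IsHomogeneous 2 :=
  (isHomogeneous_X_pow 0 2).add (isHomogeneous_C_mul_X_pow c 1 2)

lemma hom_q2 : (X 0 * X 1 : MvPolynomial (Fin 2) K).IsHomogeneous 2 :=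
  (isHomogeneous_X _ _).mul (isHomogeneous_X _ _)

lemma JJ_hom (c : K) : ∀ p ∈ JJ c, ∀ i : ℕ, homogeneousComponent i p ∈ JJ c := by
  intro p hp i
  let _ := MvPolynomial.gradedAlgebra (σ := Fin 2) (R := K)
  refine homogeneousComponent_mem_of_mem ?_ hp i
  apply Ideal.homogeneous_span
  intro q hq
  rcases hq with rfl | hq
  · exact ⟨2, hom_q1 c⟩
  · rw [Set.mem_singleton_iff] at hq
    subst hq
    exact ⟨2, hom_q2⟩

lemma JJ_standard (c : K) : IsStandard (JJ c) := by
  refine ⟨JJ_hom c, ?_⟩
  have h0 : (X 0 : MvPolynomial (Fin 2) K) ∈ Ideal.span (Set.range (X : Fin 2 → _)) :=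
    Ideal.subset_span (Set.mem_range_self _)
  have h1 : (X 1 : MvPolynomial (Fin 2) K) ∈ Ideal.span (Set.range (X : Fin 2 → _)) :=
    Ideal.subset_span (Set.mem_range_self _)
  rw [JJ, Ideal.span_le]
  intro q hq
  rcases hq with rfl | hq
  · exact Ideal.add_mem _ (Ideal.pow_mem_pow h0 2) (Ideal.mul_mem_left _ _ (Ideal.pow_mem_pow h1 2))
  · rw [Set.mem_singleton_iff] at hq
    subst hq
    rw [pow_two]
    exact Ideal.mul_mem_mul h0 h1

variable {c : K}

/-- scalars of the model -/
def scT : K →+* T4 K c where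
  toFun k := ⟨k, 0, 0, 0⟩
  map_one' := rfl
  map_zero' := rfl
  map_add' x y := by ext <;> simp
  map_mul' x y := by ext <;> simp

/-- The map to the model. -/
noncomputable def toT : (MvPolynomial (Fin 2) K ⧸ JJ c) →+* T4 K c :=
  Ideal.Quotient.lift (JJ c) (eval₂Hom scT ![⟨0, 1, 0, 0⟩, ⟨0, 0, 1, 0⟩]) (by
    intro p hp
    rw [JJ, Ideal.mem_span_pair] at hp
    obtain ⟨s, t, rfl⟩ := hp
    have e1 : (⟨0, 1, 0, 0⟩ : T4 K c) ^ 2 + ⟨c, 0, 0, 0⟩ * ⟨0, 0, 1, 0⟩ ^ 2 = 0 := by
      rw [pow_two, pow_two]
      ext <;> simp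
    have e2 : (⟨0, 1, 0, 0⟩ : T4 K c) * ⟨0, 0, 1, 0⟩ = 0 := by
      ext <;> simp
    have e3 : (scT c : T4 K c) = ⟨c, 0, 0, 0⟩ := rfl
    simp [e3, e1, e2])

lemma toT_mk (p : MvPolynomial (Fin 2) K) : toT (Ideal.Quotient.mk (JJ c) p) =
    eval₂Hom scT ![⟨0, 1, 0, 0⟩, ⟨0, 0, 1, 0⟩] p := rfl

lemma toT_cst (k : K) : toT (cst (JJ c) k) = ⟨k, 0, 0, 0⟩ := by
  rw [cst, toT_mk]; simp; rfl
lemma toT_X0 : toT (Ideal.Quotient.mk (JJ c) (X 0)) = ⟨0, 1, 0, 0⟩ := by
  rw [toT_mk]; simp
lemma toT_X1 : toT (Ideal.Quotient.mk (JJ c) (X 1)) = ⟨0, 0, 1, 0⟩ := by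
  rw [toT_mk]; simp

lemma rel1 : Ideal.Quotient.mk (JJ c) (X 0) ^ 2 +
    cst (JJ c) c * Ideal.Quotient.mk (JJ c) (X 1) ^ 2 = 0 := by
  have : Ideal.Quotient.mk (JJ c) (X 0 ^ 2 + C c * X 1 ^ 2) = 0 := by
    rw [Ideal.Quotient.eq_zero_iff_mem]
    exact Ideal.subset_span (by simp)
  rw [← this]
  simp [cst]

lemma rel2 : Ideal.Quotient.mk (JJ c) (X 0) * Ideal.Quotient.mk (JJ c) (X 1) = 0 := by
  rw [← map_mul, Ideal.Quotient.eq_zero_iff_mem]
  exact Ideal.subset_span (by simp)

lemma rel3 (hc : c ≠ 0) : Ideal.Quotient.mk (JJ c) (X 1) ^ 3 = 0 := by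
  have h1 := rel1 (c := c)
  have h2 := rel2 (c := c)
  have h3 : cst (JJ c) c⁻¹ * cst (JJ c) c = 1 := by
    rw [← cst_mul, inv_mul_cancel₀ hc, cst_one]
  set x := Ideal.Quotient.mk (JJ c) (X 0)
  set y := Ideal.Quotient.mk (JJ c) (X 1)
  have : y ^ 3 = (cst (JJ c) c⁻¹ * cst (JJ c) c) * y ^ 3 := by rw [h3, one_mul]
  rw [this]
  linear_combination cst (JJ c) c⁻¹ * y * h1 - cst (JJ c) c⁻¹ * x * h2

/-- The inverse map. -/
noncomputable def ofT (hc : c ≠ 0) : T4 K c →+* (MvPolynomial (Fin 2) K ⧸ JJ c) where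
  toFun r := cst (JJ c) r.k + cst (JJ c) r.a * Ideal.Quotient.mk (JJ c) (X 0) +
    cst (JJ c) r.b * Ideal.Quotient.mk (JJ c) (X 1) +
    cst (JJ c) r.s * Ideal.Quotient.mk (JJ c) (X 1) ^ 2
  map_one' := by simp [cst]
  map_zero' := by simp [cst]
  map_add' r s := by simp [cst_add]; ring
  map_mul' r s := by
    have h1 := rel1 (c := c)
    have h2 := rel2 (c := c)
    have h3 := rel3 hc
    set x := Ideal.Quotient.mk (JJ c) (X 0)
    set y := Ideal.Quotient.mk (JJ c) (X 1)
    simp only [T4.mul_k, T4.mul_a, T4.mul_b, T4.mul_s, cst_add, cst_sub, cst_mul]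
    linear_combination (-cst (JJ c) r.a * cst (JJ c) s.a) * h1 -
      (cst (JJ c) r.a * cst (JJ c) s.b + cst (JJ c) r.b * cst (JJ c) s.a +
        (cst (JJ c) r.a * cst (JJ c) s.s + cst (JJ c) r.s * cst (JJ c) s.a) * y) * h2 -
      (cst (JJ c) r.b * cst (JJ c) s.s + cst (JJ c) r.s * cst (JJ c) s.b +
        cst (JJ c) r.s * cst (JJ c) s.s * y) * h3

lemma ofT_apply (hc : c ≠ 0) (r : T4 K c) : ofT hc r = cst (JJ c) r.k +
    cst (JJ c) r.a * Ideal.Quotient.mk (JJ c) (X 0) +
    cst (JJ c) r.b * Ideal.Quotient.mk (JJ c) (X 1) +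
    cst (JJ c) r.s * Ideal.Quotient.mk (JJ c) (X 1) ^ 2 := rfl

lemma ofT_toT (hc : c ≠ 0) (r : MvPolynomial (Fin 2) K ⧸ JJ c) : ofT hc (toT r) = r := by
  have : ((ofT hc).comp toT).comp (Ideal.Quotient.mk (JJ c)) = Ideal.Quotient.mk (JJ c) := by
    apply MvPolynomial.ringHom_ext
    · intro k
      simp only [RingHom.comp_apply]
      have : toT (Ideal.Quotient.mk (JJ c) (C k)) = ⟨k, 0, 0, 0⟩ := toT_cst k
      rw [this, ofT_apply]
      simp [cst]
    · intro i
      simp only [RingHom.comp_apply]
      fin_cases i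
      · show ofT hc (toT (Ideal.Quotient.mk (JJ c) (X 0))) = Ideal.Quotient.mk (JJ c) (X 0)
        rw [toT_X0, ofT_apply]
        simp [cst]
      · show ofT hc (toT (Ideal.Quotient.mk (JJ c) (X 1))) = Ideal.Quotient.mk (JJ c) (X 1)
        rw [toT_X1, ofT_apply]
        simp [cst]
  obtain ⟨p, rfl⟩ := Ideal.Quotient.mk_surjective r
  exact congrArg (fun h : MvPolynomial (Fin 2) K →+* (MvPolynomial (Fin 2) K ⧸ JJ c) => h p) this

lemma toT_ofT (hc : c ≠ 0) (r : T4 K c) : toT (ofT hc r) = r := by
  rw [ofT_apply]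
  simp only [map_add, map_mul, map_pow, toT_cst, toT_X0, toT_X1]
  rw [pow_two]
  ext <;> simp

/-- The isomorphism with the model. -/
noncomputable def eT (hc : c ≠ 0) : (MvPolynomial (Fin 2) K ⧸ JJ c) ≃+* T4 K c where
  toFun := toT
  invFun := ofT hc
  left_inv := ofT_toT hc
  right_inv := toT_ofT hc
  map_mul' := map_mul toT
  map_add' := map_add toT

lemma eT_apply (hc : c ≠ 0) (r : MvPolynomial (Fin 2) K ⧸ JJ c) : eT hc r = toT r := rfl

/-- linear forms as explicit combinations -/
lemma linear_form_poly (p : MvPolynomial (Fin 2) K) (hp : p.IsHomogeneous 1) :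
    ∃ a b : K, p = C a * X 0 + C b * X 1 := by
  rw [← mem_homogeneousSubmodule, homogeneousSubmodule_one_eq_span_X] at hp
  induction hp using Submodule.span_induction with
  | mem f hf =>
    obtain ⟨i, rfl⟩ := hf
    fin_cases i
    · exact ⟨1, 0, by simp⟩
    · exact ⟨0, 1, by simp⟩
  | zero => exact ⟨0, 0, by simp⟩
  | add f g _ _ hf hg =>
    obtain ⟨a, b, h1⟩ := hf
    obtain ⟨a', b', h2⟩ := hg
    refine ⟨a + a', b + b', ?_⟩
    rw [h1, h2, C_add, C_add]
    ring
  | smul k f _ hf =>
    obtain ⟨a, b, h1⟩ := hf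
    refine ⟨k * a, k * b, ?_⟩
    rw [MvPolynomial.smul_eq_C_mul, h1, C_mul, C_mul]
    ring

lemma isForm_iff (hc : c ≠ 0) (r : MvPolynomial (Fin 2) K ⧸ JJ c) :
    IsForm (JJ c) 1 r ↔ TLin (eT hc r) := by
  constructor
  · rintro ⟨p, hp, rfl⟩
    obtain ⟨a, b, rfl⟩ := linear_form_poly p hp
    rw [eT_apply, toT_mk]
    constructor <;> simp [scT]
  · rintro ⟨h1, h2⟩
    refine ⟨C (eT hc r).a * X 0 + C (eT hc r).b * X 1,
      (isHomogeneous_C_mul_X _ _).add (isHomogeneous_C_mul_X _ _), ?_⟩
    apply (eT hc).injective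
    rw [eT_apply, toT_mk]
    ext <;> simp [scT, h1, h2]

lemma colonProp_JJ (hc : c ≠ 0) : ColonProp (IsForm (JJ c) 1) :=
  ColonProp.of_equiv (eT hc) (IsForm (JJ c) 1) (fun f => TLin f) (isForm_iff hc)
    (colonProp_T4 hc)

/-- `K[x,y]/(x^2 + c y^2, x y)` is universally Koszul. -/
theorem universallyKoszul_JJ (hc : c ≠ 0) : UniversallyKoszul (JJ c) := by
  intro I hI
  obtain ⟨b, g, A, h1, h2, h3, h4, h5⟩ := exists_linear_resolution (L := IsForm (JJ c) 1)
    (IsForm.zero 1) (fun _ h => h.neg) (liftProp (JJ_hom c)) (colonProp_JJ hc) I hI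
  exact ⟨b, g, A, h1, h2, h3, h4, h5⟩

lemma cube_mem (hc : c ≠ 0) (p : MvPolynomial (Fin 2) K) (hp : p.IsHomogeneous 1) :
    p ^ 3 ∈ JJ c := by
  obtain ⟨a, b, rfl⟩ := linear_form_poly p hp
  rw [← Ideal.Quotient.eq_zero_iff_mem]
  apply (eT hc).injective
  rw [eT_apply, toT_mk, map_zero]
  have : ((⟨0, a, b, 0⟩ : T4 K c)) ^ 3 = 0 := by
    rw [pow_succ, pow_two]
    ext <;> simp
  rw [← this, map_pow]
  congr 1
  ext <;> simp [scT]

lemma no_square (hns : ¬ IsSquare c) (p : MvPolynomial (Fin 2) K) (hp : p.IsHomogeneous 1)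
    (h : p ^ 2 ∈ JJ c) : p = 0 := by
  obtain ⟨a, b, rfl⟩ := linear_form_poly p hp
  rw [← Ideal.Quotient.eq_zero_iff_mem] at h
  have h1 := congrArg toT h
  rw [toT_mk, map_zero, map_pow] at h1
  have h2 := congrArg T4.s h1
  rw [pow_two] at h2
  simp [scT] at h2
  have ha : a = 0 := by
    by_contra hne
    apply hns
    refine ⟨b / a, ?_⟩
    field_simp
    linear_combination -h2
  subst ha
  have hb : b = 0 := by
    simpa using h2
  simp [hb]

/-- A linear automorphism is surjective on linear forms. -/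
lemma exists_linear_preimage (φ : MvPolynomial (Fin 2) K ≃ₐ[K] MvPolynomial (Fin 2) K)
    (hφ : ∀ i, (φ (X i)).IsHomogeneous 1) (i : Fin 2) :
    ∃ l : MvPolynomial (Fin 2) K, l.IsHomogeneous 1 ∧ φ l = X i := by
  have hmap : ∀ p ∈ homogeneousSubmodule (Fin 2) K 1,
      φ.toLinearMap p ∈ homogeneousSubmodule (Fin 2) K 1 := by
    intro p hp
    rw [homogeneousSubmodule_one_eq_span_X] at hp
    induction hp using Submodule.span_induction with
    | mem f hf =>
      obtain ⟨j, rfl⟩ := hf
      exact hφ j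
    | zero => rw [map_zero]; exact Submodule.zero_mem _
    | add f g _ _ hf hg => rw [map_add]; exact Submodule.add_mem _ hf hg
    | smul k f _ hf => rw [map_smul]; exact Submodule.smul_mem _ _ hf
  let f : homogeneousSubmodule (Fin 2) K 1 →ₗ[K] homogeneousSubmodule (Fin 2) K 1 :=
    φ.toLinearMap.restrict hmap
  have hfin : FiniteDimensional K (homogeneousSubmodule (Fin 2) K 1) := by
    rw [homogeneousSubmodule_one_eq_span_X]
    exact FiniteDimensional.span_of_finite K (Set.finite_range _)
  have hinj : Function.Injective f := by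
    intro p q hpq
    have := congrArg Subtype.val hpq
    exact Subtype.ext (φ.injective this)
  obtain ⟨l, hl⟩ := (LinearMap.injective_iff_surjective.mp hinj)
    ⟨X i, isHomogeneous_X _ _⟩
  exact ⟨l.1, l.2, congrArg Subtype.val hl⟩

lemma not_gQuadratic (hns : ¬ IsSquare c) : ¬ GQuadratic.{u, w} (JJ c) := by
  have hc : c ≠ 0 := by
    rintro rfl
    exact hns ⟨0, by simp⟩
  rintro ⟨φ, m, hφ, hgb⟩
  choose l hl hlX using exists_linear_preimage φ hφ
  -- quadrics with leading monomial `X i ^ 2`
  have hq : ∀ i : Fin 2, ∃ q ∈ (JJ c).map φ, q ≠ 0 ∧ q.IsHomogeneous 2 ∧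
      m.degree q = Finsupp.single i 2 := by
    intro i
    have h1 : (X i : MvPolynomial (Fin 2) K) ^ 3 ∈ (JJ c).map φ := by
      rw [← hlX i, ← map_pow]
      exact Ideal.mem_map_of_mem _ (cube_mem hc _ (hl i))
    have h2 : (X i : MvPolynomial (Fin 2) K) ^ 3 ≠ 0 := pow_ne_zero 3 (X_ne_zero i)
    obtain ⟨q, hqJ, hq0, hqh, hqd⟩ := hgb _ h1 h2
    refine ⟨q, hqJ, hq0, hqh, ?_⟩
    have h3 : m.degree ((X i : MvPolynomial (Fin 2) K) ^ 3) = Finsupp.single i 3 := by
      rw [MonomialOrder.degree_pow, MonomialOrder.degree_X]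
      simp
    rw [h3] at hqd
    have h4 : (m.degree q).degree = 2 := by
      by_contra hne
      have h5 := (MonomialOrder.degree_mem_support_iff (m := m) q).mpr hq0
      rw [mem_support_iff] at h5
      exact h5 (hqh.coeff_eq_zero hne)
    have h5 : ∀ j, j ≠ i → m.degree q j = 0 := by
      intro j hj
      have := hqd j
      rw [Finsupp.single_eq_of_ne hj] at this
      omega
    ext j
    by_cases hj : j = i
    · subst hj
      rw [Finsupp.single_eq_same]
      rw [Finsupp.degree_eq_sum, Fintype.sum_eq_single j h5] at h4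
      exact h4
    · rw [h5 j hj, Finsupp.single_eq_of_ne hj]
  -- the smaller variable
  have hmain : ∀ i j : Fin 2, i ≠ j →
      m.toSyn (Finsupp.single i 1) < m.toSyn (Finsupp.single j 1) → False := by
    intro i j hij hlt
    obtain ⟨q, hqJ, hq0, hqh, hqd⟩ := hq i
    have hsupp : ∀ d ∈ q.support, d = Finsupp.single i 2 := by
      intro d hd
      have hle := MonomialOrder.le_degree (m := m) hd
      rw [hqd] at hle
      have hdeg : d.degree = 2 := by
        by_contra hne
        rw [mem_support_iff] at hd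
        exact hd (hqh.coeff_eq_zero hne)
      have huniv : ∀ k : Fin 2, k = i ∨ k = j := by
        intro k
        fin_cases k <;> fin_cases i <;> fin_cases j <;> simp_all
      have hsum : d = d i • Finsupp.single i 1 + d j • Finsupp.single j 1 := by
        ext k
        rcases huniv k with rfl | rfl
        · simp [Finsupp.single_eq_of_ne hij]
        · simp [Finsupp.single_eq_of_ne hij.symm]
      have hdeg' : d i + d j = 2 := by
        rw [hsum] at hdeg
        simpa using hdeg
      have h2 : m.toSyn (Finsupp.single i 2) =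
          m.toSyn (Finsupp.single i 1) + m.toSyn (Finsupp.single i 1) := by
        rw [← map_add, ← Finsupp.single_add]
      rw [h2] at hle
      have hcases : d j = 0 ∨ d j = 1 ∨ d j = 2 := by omega
      rcases hcases with h | h | h
      · have hi : d i = 2 := by omega
        rw [hsum, h, hi]
        simp
      · have hi : d i = 1 := by omega
        rw [hsum, h, hi, one_smul, one_smul, map_add] at hle
        exact absurd hle (not_le_of_gt (add_lt_add_right hlt _))
      · have hi : d i = 0 := by omega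
        rw [hsum, h, hi, zero_smul, zero_add, two_nsmul, map_add] at hle
        exact absurd hle (not_le_of_gt (add_lt_add hlt hlt))
    have hqeq : q = C (q.coeff (Finsupp.single i 2)) * X i ^ 2 := by
      ext d
      rw [X_pow_eq_monomial, C_mul_monomial, mul_one, coeff_monomial]
      split_ifs with h
      · rw [h]
      · by_contra hne
        exact h (hsupp d (mem_support_iff.mpr hne)).symm
    have hk : q.coeff (Finsupp.single i 2) ≠ 0 := by
      intro h
      rw [h, C_0, zero_mul] at hqeq
      exact hq0 hqeq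
    have hX : (X i : MvPolynomial (Fin 2) K) ^ 2 ∈ (JJ c).map φ := by
      have : (X i : MvPolynomial (Fin 2) K) ^ 2 = C (q.coeff (Finsupp.single i 2))⁻¹ * q := by
        calc (X i : MvPolynomial (Fin 2) K) ^ 2 = C (q.coeff (Finsupp.single i 2))⁻¹ *
              (C (q.coeff (Finsupp.single i 2)) * X i ^ 2) := by
              rw [← mul_assoc, ← C_mul, inv_mul_cancel₀ hk, C_1, one_mul]
          _ = C (q.coeff (Finsupp.single i 2))⁻¹ * q := by rw [← hqeq]
      rw [this]
      exact Ideal.mul_mem_left _ _ hqJ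
    have hl2 : l i ^ 2 ∈ JJ c := by
      rw [← hlX i, ← map_pow] at hX
      rw [Ideal.mem_map_of_equiv] at hX
      obtain ⟨x, hx, hxe⟩ := hX
      rw [← φ.injective hxe]
      exact hx
    have hl0 := no_square hns (l i) (hl i) hl2
    have := hlX i
    rw [hl0, map_zero] at this
    exact X_ne_zero i this.symm
  rcases lt_trichotomy (m.toSyn (Finsupp.single 0 1)) (m.toSyn (Finsupp.single 1 1)) with h | h | h
  · exact hmain 0 1 (by decide) h
  · have := m.toSyn.injective h
    have h2 := congrArg (fun d : Fin 2 →₀ ℕ => d 0) this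
    simp at h2
  · exact hmain 1 0 (by decide) h

end Concrete

/-- Over every field `K` that has an element which is not a square there is a universally Koszul
standard graded `K`-algebra `K[x_1,…,x_n]/J` that is not G-quadratic. -/
theorem result : ∀ (K : Type u) [Field K], (∃ c : K, ¬ IsSquare c) →
    ∃ (n : ℕ) (J : Ideal (MvPolynomial (Fin n) K)),
      IsStandard J ∧ UniversallyKoszul J ∧ ¬ GQuadratic.{u, w} J := by
  rintro K _ ⟨c, hns⟩
  have hc : c ≠ 0 := by
    rintro rfl
    exact hns ⟨0, by simp⟩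
  exact ⟨2, JJ c, JJ_standard c, universallyKoszul_JJ hc, not_gQuadratic hns⟩

end Pool.Agent.Results.MP_8dd27d_al.Disproof
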